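import Pool.Agent.helper16.EXC.Spec3

set_option autoImplicit false

/-!
# Row ZM0 of project EXC, block 3: only types `≥ 0`
-/

open Finset

namespace Pool.Agent.EXC

theorem ZM0_finite {n : ℕ} (C : Matrix (Fin n) (Fin n) ℤ) [IsC C] (F : Type) [Field F] [Finite F] :
    Finite (EG C F) := by
  have : Finite (Lm C F ≃ₗ[F] Lm C F) := DFunLike.finite _
  infer_instance

theorem ZM0 (hZGA : ZGA_stmt) (hZC0 : ZC0_stmt) (hZFN : ZFN_stmt) (hIMX : IMX_stmt) (hTPF : TPF_stmt)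
    (hPCL : PCL_stmt) (hEXF : EXF_stmt) (hXAU : XAU_stmt) (hNBR : NBR_stmt) : ZM0_stmt := by
  intro n C _ F _ _ j0 θ δ hE x hRA hty a b hExa hExb hIm hTp
  have := ZM0_finite C F
  have hbeta := (hNBR n C j0 θ δ hE).1
  obtain ⟨_, _, E3, _⟩ := hEXF n C F hbeta
  obtain ⟨I1, _, _, I4⟩ := hIMX n C F j0 θ δ hE x hRA
  have T := hTPF n C F θ hE.th2 hbeta
  obtain ⟨_, _, _, _, Ea5, _, Ea7, _, _⟩ := E3 a hExa
  obtain ⟨hXtrb, _, _, Eb4, _, _, _, _, _⟩ := E3 b hExb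
  obtain ⟨h, hhG, hhX⟩ := Ea5 1
  obtain ⟨v, hv⟩ := (hIm ⟨h, hhG⟩).1 ⟨1, hhX⟩
  have hv0 : v ≠ 0 := by
    intro hv0
    have h1 : x (⟨h, hhG⟩ : EG C F) = 1 := by
      apply Subtype.ext
      apply LinearEquiv.ext
      intro w
      have h2 := hv w
      rw [hv0] at h2
      rw [h2]
      simp [xe]
    have h2 : (⟨h, hhG⟩ : EG C F) = 1 := by
      apply x.injective
      rw [h1, map_one]
    have h3 : h = 1 := congrArg Subtype.val h2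
    have h4 : IsX C a 0 h := by
      intro w
      rw [h3]
      simp [xe]
    exact one_ne_zero (Ea7 1 0 h hhX h4)
  have hb'X : IsX C (v • b) 1 ((x (⟨h, hhG⟩ : EG C F) : EG C F) : Lm C F ≃ₗ[F] Lm C F) := by
    intro w
    rw [((hXAU n C F b hXtrb).2.2.2 v).2 1 w, mul_one]
    exact hv w
  have hTp' : Tp C θ a (v • b) 0 := by
    have h1 := (T a b 0 hTp).2.2.2.1 1 v one_ne_zero hv0
    rwa [one_smul] at h1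
  have hIm' : Im C x a (v • b) := by
    have h1 := I4 a b 1 v hExa hExb one_ne_zero hv0 hIm
    rwa [one_smul] at h1
  obtain ⟨f, hExf, hTaf, hTbf, hfm⟩ := (hZFN n C F j0 θ δ hE a (v • b)).1 hTp'
  obtain ⟨_, _, _, _, Ef5, _, _, _, _⟩ := E3 f hExf
  obtain ⟨k, hkG, hkX⟩ := Ef5 1
  obtain ⟨d, hExd, hImd⟩ := I1 f hExf
  obtain ⟨m, _, _, hTm⟩ := hPCL n C F j0 θ δ hE f d hExf hExd
  have hm0 : 0 ≤ m := hty f d m hExf hExd hImd hTm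
  have c1 : (⟨h, hhG⟩ : EG C F) * x ⟨h, hhG⟩ = x ⟨h, hhG⟩ * ⟨h, hhG⟩ :=
    ((T a (v • b) 0 hTp').2.2.2.2.2.2.2).2 le_rfl _ _ ⟨1, hhX⟩ ⟨1, hb'X⟩
  have c2 : (⟨h, hhG⟩ : EG C F) * ⟨k, hkG⟩ = ⟨k, hkG⟩ * ⟨h, hhG⟩ :=
    ((T a f 0 hTaf).2.2.2.2.2.2.2).2 le_rfl _ _ ⟨1, hhX⟩ ⟨1, hkX⟩
  have c3 : x (⟨h, hhG⟩ : EG C F) * x ⟨k, hkG⟩ = x ⟨k, hkG⟩ * x ⟨h, hhG⟩ := by
    rw [← map_mul, ← map_mul, c2]
  have c4 : (⟨k, hkG⟩ : EG C F) * x ⟨k, hkG⟩ = x ⟨k, hkG⟩ * ⟨k, hkG⟩ :=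
    ((T f d m hTm).2.2.2.2.2.2.2).2 hm0 _ _ ⟨1, hkX⟩ ((hImd ⟨k, hkG⟩).1 ⟨1, hkX⟩)
  have key := hZC0 n C F j0 θ δ hE (v • b) f ⟨h, hhG⟩ (x ⟨h, hhG⟩) ⟨k, hkG⟩ (x ⟨k, hkG⟩)
    hTbf hfm hb'X hkX c1 c2 c3 c4
  refine hZGA (EG C F) x ⟨h, hhG⟩ ⟨k, hkG⟩ _ 3 ?_ key
  exact Subgroup.mul_mem _ (Subgroup.subset_closure (Set.mem_insert _ _))
    (Subgroup.subset_closure (Set.mem_insert_of_mem _ (Set.mem_singleton _)))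

end Pool.Agent.EXC
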